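import Mathlib
import Pool.Agent.V1130.McLain
import Pool.Agent.V1130.AutPi

/-!
# MP_f6f6d4_al, Q1: YES.

There is a non-abelian characteristically simple group `T`, neither simple nor an FCR-group,
such that for every `m > 1` the diagonal group `D(T, m)` preserves a Cartesian lattice.
The group is `T = M × M` with `M` the McLain group over `ℚ` and `𝔽₂`.
-/

namespace Pool.Agent.Results.MP_f6f6d4_al.DiagonalCartesianLattice

universe u

/-- The diagonal subgroup `δ(T)` of `T^{m+1}`. -/
def diag (T : Type u) [Group T] (m : ℕ) : Subgroup (Fin (m + 1) → T) where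
  carrier := {x | ∃ t : T, x = fun _ => t}
  one_mem' := ⟨1, rfl⟩
  mul_mem' := by rintro _ _ ⟨a, rfl⟩ ⟨b, rfl⟩; exact ⟨a * b, rfl⟩
  inv_mem' := by rintro _ ⟨a, rfl⟩; exact ⟨a⁻¹, rfl⟩

/-- The set `Ω` of right cosets `δ(T) x`, `x ∈ T^{m+1}`. -/
abbrev Omega (T : Type u) [Group T] (m : ℕ) : Type u :=
  Quotient (QuotientGroup.rightRel (diag T m))

theorem rel_iff {T : Type u} [Group T] {m : ℕ} {x y : Fin (m + 1) → T} :
    QuotientGroup.rightRel (diag T m) x y ↔ ∃ t : T, ∀ i, y i = t * x i := by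
  rw [QuotientGroup.rightRel_apply]
  constructor
  · rintro ⟨t, ht⟩
    refine ⟨t, fun i => ?_⟩
    have := congrFun ht i
    rw [Pi.mul_apply, Pi.inv_apply, mul_inv_eq_iff_eq_mul] at this
    exact this
  · rintro ⟨t, ht⟩
    refine ⟨t, funext fun i => ?_⟩
    rw [Pi.mul_apply, Pi.inv_apply, ht i, mul_inv_cancel_right]

/-- The permutation `δ(T) x ↦ δ(T) x g` of `Ω`. -/
def rightMulPerm {T : Type u} [Group T] {m : ℕ} (g : Fin (m + 1) → T) :
    Equiv.Perm (Omega T m) :=
  Quotient.congr (Equiv.mulRight g) (by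
    intro x y
    rw [rel_iff, rel_iff]
    refine exists_congr fun t => forall_congr' fun i => ?_
    simp only [Equiv.coe_mulRight, Pi.mul_apply]
    rw [← mul_assoc, mul_left_inj])

/-- The permutation of `Ω` induced by `(t₀, …, t_m) ↦ (α t₀, …, α t_m)`. -/
def autPerm {T : Type u} [Group T] {m : ℕ} (α : T ≃* T) : Equiv.Perm (Omega T m) :=
  Quotient.congr (Equiv.piCongrRight fun _ => α.toEquiv) (by
    intro x y
    rw [rel_iff, rel_iff]
    constructor
    · rintro ⟨t, ht⟩
      exact ⟨α t, fun i => by simp [ht i]⟩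
    · rintro ⟨t, ht⟩
      refine ⟨α.symm t, fun i => α.injective ?_⟩
      simpa using ht i)

/-- The permutation of `Ω` induced by a permutation of the `m + 1` coordinates. -/
def coordPerm {T : Type u} [Group T] {m : ℕ} (π : Equiv.Perm (Fin (m + 1))) :
    Equiv.Perm (Omega T m) :=
  Quotient.congr (Equiv.arrowCongr π (Equiv.refl T)) (by
    intro x y
    rw [rel_iff, rel_iff]
    refine exists_congr fun t => ?_
    constructor
    · intro h i
      exact h (π.symm i)
    · intro h i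
      have := h (π i)
      simpa using this)

/-- The diagonal group `D(T, m)`: the group of permutations of `Ω` generated by the right
multiplications, the automorphisms of `T` and the coordinate permutations. -/
def diagonalGroup (T : Type u) [Group T] (m : ℕ) : Subgroup (Equiv.Perm (Omega T m)) :=
  Subgroup.closure (Set.range rightMulPerm ∪ Set.range autPerm ∪ Set.range coordPerm)

/-- The partition `Q_J` of `Δ^n`: two tuples are in the same part iff they agree in every
coordinate outside `J`. -/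
def cartPart (Δ : Type u) {n : ℕ} (J : Set (Fin n)) : Setoid (Fin n → Δ) where
  r x y := ∀ i, i ∉ J → x i = y i
  iseqv := ⟨fun _ _ _ => rfl, fun h i hi => (h i hi).symm,
    fun h h' i hi => (h i hi).trans (h' i hi)⟩

/-- The transported Cartesian lattice `{Q_J}` on `Ω` for a bijection `Φ : Ω ≃ Δ^n`. -/
def cartLattice {Ω Δ : Type u} {n : ℕ} (Φ : Ω ≃ (Fin n → Δ)) : Set (Setoid Ω) :=
  {s | ∃ J : Set (Fin n), s = (cartPart Δ J).comap Φ}

/-- The image of a partition (equivalence relation) under a permutation `g`: `x, y` are in the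
same part of the image iff `g⁻¹ x, g⁻¹ y` are in the same part. -/
def mapPartition {Ω : Type u} (g : Equiv.Perm Ω) (s : Setoid Ω) : Setoid Ω :=
  s.comap (g⁻¹ : Equiv.Perm Ω)

/-- A permutation group `G` on `Ω` preserves a Cartesian lattice. -/
def PreservesCartesianLattice {Ω : Type u} (G : Subgroup (Equiv.Perm Ω)) : Prop :=
  ∃ (Δ : Type u) (n : ℕ) (Φ : Ω ≃ (Fin n → Δ)), Nontrivial Δ ∧ 2 ≤ n ∧
    ∀ g ∈ G, mapPartition g '' cartLattice Φ = cartLattice Φ

/-- `T` is an FCR-group: `T ≅ S^k` for a non-abelian simple group `S` and some `k ≥ 1`. -/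
def IsFCR (T : Type u) [Group T] : Prop :=
  ∃ (S : Type u) (_ : Group S) (k : ℕ), IsSimpleGroup S ∧ (∃ a b : S, a * b ≠ b * a) ∧
    1 ≤ k ∧ Nonempty (T ≃* (Fin k → S))

/-- `T` is nontrivial and its only characteristic subgroups are `1` and `T`. -/
def IsCharSimple (T : Type u) [Group T] : Prop :=
  Nontrivial T ∧ ∀ K : Subgroup T, K.Characteristic → K = ⊥ ∨ K = ⊤

/-! ### The diagonal group of a power preserves a Cartesian lattice -/

section Lattice

variable {R : Type u} [Group R] {n m : ℕ}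

/-- The natural map `Ω_{R^n} → (Ω_R)^n`. -/
def phiFun (R : Type u) [Group R] (n m : ℕ) : Omega (Fin n → R) m → (Fin n → Omega R m) :=
  fun w i => Quotient.map (fun x k => x k i) (by
    intro x y h
    obtain ⟨t, ht⟩ := rel_iff.1 h
    exact rel_iff.2 ⟨t i, fun k => by rw [ht k]; rfl⟩) w

theorem phiFun_mk (x : Fin (m + 1) → Fin n → R) (i : Fin n) :
    phiFun R n m (Quotient.mk _ x) i = Quotient.mk _ (fun k => x k i) := rfl

theorem phiFun_bijective : Function.Bijective (phiFun R n m) := by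
  constructor
  · intro a b
    induction a using Quotient.inductionOn with | _ x
    induction b using Quotient.inductionOn with | _ y
    intro h
    apply Quotient.sound
    have h2 : ∀ i, ∃ t : R, ∀ k, y k i = t * x k i := by
      intro i
      have := congrFun h i
      rw [phiFun_mk, phiFun_mk] at this
      exact rel_iff.1 (Quotient.exact this)
    choose t ht using h2
    exact rel_iff.2 ⟨t, fun k => funext fun i => ht i k⟩
  · intro z
    refine ⟨Quotient.mk _ (fun k i => (z i).out k), funext fun i => ?_⟩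
    rw [phiFun_mk]
    exact Quotient.out_eq (z i)

/-- The bijection `Ω_{R^n} ≃ (Ω_R)^n`. -/
noncomputable def phi (R : Type u) [Group R] (n m : ℕ) :
    Omega (Fin n → R) m ≃ (Fin n → Omega R m) := Equiv.ofBijective _ phiFun_bijective

theorem phi_mk (x : Fin (m + 1) → Fin n → R) (i : Fin n) :
    phi R n m (Quotient.mk _ x) i = Quotient.mk _ (fun k => x k i) := rfl

/-- `g` permutes the coordinate kernels of `Φ`. -/
def Good {Ω Δ : Type u} (Φ : Ω ≃ (Fin n → Δ)) (g : Equiv.Perm Ω) : Prop :=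
  ∃ σ : Equiv.Perm (Fin n), ∀ x y i, Φ (g x) i = Φ (g y) i ↔ Φ x (σ i) = Φ y (σ i)

theorem good_one {Ω Δ : Type u} (Φ : Ω ≃ (Fin n → Δ)) : Good Φ 1 := ⟨1, fun _ _ _ => Iff.rfl⟩

theorem Good.mul {Ω Δ : Type u} {Φ : Ω ≃ (Fin n → Δ)} {g h : Equiv.Perm Ω} (hg : Good Φ g)
    (hh : Good Φ h) : Good Φ (g * h) := by
  obtain ⟨σ, hσ⟩ := hg
  obtain ⟨τ, hτ⟩ := hh
  refine ⟨τ * σ, fun x y i => ?_⟩
  rw [Equiv.Perm.mul_apply, Equiv.Perm.mul_apply, hσ, hτ]
  rfl

theorem Good.inv {Ω Δ : Type u} {Φ : Ω ≃ (Fin n → Δ)} {g : Equiv.Perm Ω} (hg : Good Φ g) :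
    Good Φ g⁻¹ := by
  obtain ⟨σ, hσ⟩ := hg
  refine ⟨σ⁻¹, fun x y i => ?_⟩
  have := hσ (g⁻¹ x) (g⁻¹ y) (σ⁻¹ i)
  have e1 : g (g⁻¹ x) = x := g.apply_symm_apply x
  have e2 : g (g⁻¹ y) = y := g.apply_symm_apply y
  have e3 : σ (σ⁻¹ i) = i := σ.apply_symm_apply i
  rw [e1, e2, e3] at this
  exact this.symm

theorem Good.image {Ω Δ : Type u} {Φ : Ω ≃ (Fin n → Δ)} {g : Equiv.Perm Ω} (hg : Good Φ g) :
    mapPartition g '' cartLattice Φ = cartLattice Φ := by
  obtain ⟨τ, hτ⟩ := hg.inv
  have key : ∀ J : Set (Fin n), mapPartition g ((cartPart Δ J).comap Φ) =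
      (cartPart Δ (τ.symm ⁻¹' J)).comap Φ := by
    intro J
    ext x y
    change (∀ i, i ∉ J → Φ (g⁻¹ x) i = Φ (g⁻¹ y) i) ↔
      (∀ i, τ.symm i ∉ J → Φ x i = Φ y i)
    constructor
    · intro h i hi
      have := (hτ x y (τ.symm i)).1 (h _ hi)
      rwa [Equiv.apply_symm_apply] at this
    · intro h i hi
      apply (hτ x y i).2
      apply h
      rwa [Equiv.symm_apply_apply]
  ext s
  constructor
  · rintro ⟨_, ⟨J, rfl⟩, rfl⟩
    exact ⟨_, key J⟩
  · rintro ⟨J, rfl⟩
    refine ⟨_, ⟨τ ⁻¹' J, rfl⟩, ?_⟩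
    rw [key]
    congr 2
    ext i
    simp

theorem good_rightMul (g : Fin (m + 1) → Fin n → R) : Good (phi R n m) (rightMulPerm g) := by
  refine ⟨1, fun a b i => ?_⟩
  induction a using Quotient.inductionOn with | _ x
  induction b using Quotient.inductionOn with | _ y
  change (Quotient.mk _ (fun k => (x * g) k i) = Quotient.mk _ (fun k => (y * g) k i)) ↔
    (Quotient.mk _ (fun k => x k i) = Quotient.mk _ (fun k => y k i))
  rw [Quotient.eq, Quotient.eq, rel_iff, rel_iff]
  refine exists_congr fun t => forall_congr' fun k => ?_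
  rw [Pi.mul_apply, Pi.mul_apply, Pi.mul_apply, Pi.mul_apply, ← mul_assoc, mul_left_inj]

theorem good_coord (π : Equiv.Perm (Fin (m + 1))) :
    Good (phi R n m) (coordPerm π) := by
  refine ⟨1, fun a b i => ?_⟩
  induction a using Quotient.inductionOn with | _ x
  induction b using Quotient.inductionOn with | _ y
  change (Quotient.mk _ (fun k => x (π.symm k) i) = Quotient.mk _ (fun k => y (π.symm k) i)) ↔
    (Quotient.mk _ (fun k => x k i) = Quotient.mk _ (fun k => y k i))
  rw [Quotient.eq, Quotient.eq, rel_iff, rel_iff]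
  refine exists_congr fun t => ?_
  constructor
  · intro h k
    have := h (π k)
    rwa [Equiv.symm_apply_apply] at this
  · intro h k
    exact h _

theorem good_aut (α : (Fin n → R) ≃* (Fin n → R))
    (hα : ∃ (σ : Equiv.Perm (Fin n)) (ψ : Fin n → R →* R), (∀ j, Function.Injective (ψ j)) ∧
      ∀ x j, α x j = ψ j (x (σ j))) :
    Good (phi R n m) (autPerm α) := by
  obtain ⟨σ, ψ, hψ, h⟩ := hα
  refine ⟨σ, fun a b i => ?_⟩
  induction a using Quotient.inductionOn with | _ x
  induction b using Quotient.inductionOn with | _ y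
  change (Quotient.mk _ (fun k => α (x k) i) = Quotient.mk _ (fun k => α (y k) i)) ↔
    (Quotient.mk _ (fun k => x k (σ i)) = Quotient.mk _ (fun k => y k (σ i)))
  rw [Quotient.eq, Quotient.eq, rel_iff, rel_iff]
  simp only [h]
  constructor
  · rintro ⟨t, ht⟩
    refine ⟨y 0 (σ i) * (x 0 (σ i))⁻¹, fun k => hψ i ?_⟩
    have h0 : t = ψ i (y 0 (σ i) * (x 0 (σ i))⁻¹) := by
      rw [map_mul, map_inv, ht 0, mul_inv_cancel_right]
    rw [map_mul, ← h0]
    exact ht k
  · rintro ⟨t, ht⟩
    exact ⟨ψ i t, fun k => by rw [ht k, map_mul]⟩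

theorem preserves_of_aut [Nontrivial R] (hn : 2 ≤ n) (hm : 1 ≤ m)
    (hα : ∀ α : (Fin n → R) ≃* (Fin n → R),
      ∃ (σ : Equiv.Perm (Fin n)) (ψ : Fin n → R →* R), (∀ j, Function.Injective (ψ j)) ∧
      ∀ x j, α x j = ψ j (x (σ j))) :
    PreservesCartesianLattice (diagonalGroup (Fin n → R) m) := by
  refine ⟨Omega R m, n, phi R n m, ?_, hn, fun g hg => Good.image ?_⟩
  · obtain ⟨r, hr⟩ := exists_ne (1 : R)
    refine ⟨Quotient.mk _ 1, Quotient.mk _ (Pi.mulSingle 0 r), fun h => hr ?_⟩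
    rw [Quotient.eq, rel_iff] at h
    obtain ⟨t, ht⟩ := h
    have h0 := ht 0
    have h1 := ht ⟨1, by omega⟩
    rw [Pi.mulSingle_eq_same, Pi.one_apply, mul_one] at h0
    rw [Pi.mulSingle_eq_of_ne (by intro h; simp [Fin.ext_iff] at h), Pi.one_apply, mul_one] at h1
    rw [h0, ← h1]
  · unfold diagonalGroup at hg
    induction hg using Subgroup.closure_induction with
    | mem g hg =>
      rcases hg with (⟨x, rfl⟩ | ⟨α, rfl⟩) | ⟨π, rfl⟩
      · exact good_rightMul x
      · exact good_aut α (hα α)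
      · exact good_coord π
    | one => exact good_one _
    | mul g h _ _ ihg ihh => exact ihg.mul ihh
    | inv g _ ihg => exact ihg.inv

end Lattice

/-! ### The group `T = M^n` with `M` the McLain group -/

open V1130.McLain in
/-- The McLain group as a type. -/
abbrev M : Type := V1130.McLain.R

open V1130.McLain

theorem nontrivial_M : Nontrivial M := by
  obtain ⟨τ, hτ⟩ := exists_tvR (show (0 : ℚ) < 1 by norm_num)
  exact ⟨τ, 1, fun h => tv_ne_one hτ (congrArg Subtype.val h)⟩

/-- A nontrivial normal subgroup of `M^n` contains `t_{c,d}` in some coordinate, for all small `c`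
and large `d`. -/
theorem normal_pi {n : ℕ} (N : Subgroup (Fin n → M)) [hN : N.Normal] {g : Fin n → M}
    (hg : g ∈ N) {i : Fin n} (hi : g i ≠ 1) :
    ∃ l u : ℚ, l < u ∧ ∀ c d, c ≤ l → u ≤ d → ∀ τ : M, IsTv c d τ.1 →
      (Pi.mulSingle i τ : Fin n → M) ∈ N := by
  have h := normal_key (N.comap (MonoidHom.mulSingle (fun _ => M) i)) hi (fun t => by
    rw [Subgroup.mem_comap]
    have h1 : (MonoidHom.mulSingle (fun _ => M) i) (g i * t * (g i)⁻¹ * t⁻¹) =
        g * (Pi.mulSingle i t * g⁻¹ * (Pi.mulSingle i t)⁻¹) := by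
      funext l
      by_cases hl : l = i
      · subst hl
        simp [mul_assoc]
      · simp [Pi.mulSingle_eq_of_ne hl]
    rw [h1]
    exact N.mul_mem hg (hN.conj_mem _ (N.inv_mem hg) _))
  exact h

theorem charSimple {n : ℕ} (hn : 2 ≤ n) : IsCharSimple (Fin n → M) := by
  have := nontrivial_M
  have : Nonempty (Fin n) := ⟨⟨0, by omega⟩⟩
  refine ⟨inferInstance, fun K hK => ?_⟩
  rcases Subgroup.bot_or_exists_ne_one K with h | ⟨g, hg, hg1⟩
  · exact Or.inl h
  right
  obtain ⟨i, hi⟩ : ∃ i, g i ≠ 1 := by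
    by_contra hcon
    push Not at hcon
    exact hg1 (funext hcon)
  have hKn : K.Normal := inferInstance
  obtain ⟨l, u, hlu, hk⟩ := normal_pi K hg hi
  have hauto : ∀ (φ : (Fin n → M) ≃* (Fin n → M)) (x : Fin n → M), x ∈ K → φ x ∈ K := by
    intro φ x hx
    have h2 := hK.fixed φ
    rw [← h2] at hx
    exact hx
  obtain ⟨τ, hτ⟩ := exists_tvR hlu
  have h3 := hk l u le_rfl le_rfl τ hτ
  have h4 : ∀ a b : ℚ, a < b → ∀ τ' : M, IsTv a b τ'.1 → ∀ j : Fin n,
      (Pi.mulSingle j τ' : Fin n → M) ∈ K := by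
    intro a b hab τ' hτ' j
    obtain ⟨φ, hφ⟩ := exists_aut hlu hab
    have h5 : φ τ = τ' := Subtype.ext ((hφ τ hτ).unique hτ')
    have h6 := hauto (MulEquiv.piCongrRight fun _ => φ) _ h3
    have h7 : (MulEquiv.piCongrRight fun _ => φ) (Pi.mulSingle i τ : Fin n → M) =
        Pi.mulSingle i τ' := by
      funext l
      by_cases hl : l = i
      · subst hl; simp [h5]
      · simp [Pi.mulSingle_eq_of_ne hl]
    rw [h7] at h6
    have h8 := hauto (MulEquiv.arrowCongr (Equiv.swap i j) (MulEquiv.refl M)) _ h6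
    have h9 : (MulEquiv.arrowCongr (Equiv.swap i j) (MulEquiv.refl M))
        (Pi.mulSingle i τ' : Fin n → M) = Pi.mulSingle j τ' := by
      funext l
      change (Pi.mulSingle i τ' : Fin n → M) ((Equiv.swap i j).symm l) = _
      by_cases hl : l = j
      · subst hl; simp
      · rw [Pi.mulSingle_eq_of_ne hl, Pi.mulSingle_eq_of_ne]
        intro h
        apply hl
        rw [Equiv.symm_apply_eq, Equiv.swap_apply_left] at h
        exact h
    rwa [h9] at h8
  rw [eq_top_iff]
  intro x _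
  apply Subgroup.pi_mem_of_mulSingle_mem
  intro j
  have h10 : K.comap (MonoidHom.mulSingle (fun _ => M) j) = ⊤ := by
    apply eq_top_of_tv
    intro a b hab τ' hτ'
    exact h4 a b hab τ' hτ' j
  have : x j ∈ K.comap (MonoidHom.mulSingle (fun _ => M) j) := by rw [h10]; trivial
  exact this

theorem nonabelian {n : ℕ} (hn : 2 ≤ n) : ∃ a b : Fin n → M, a * b ≠ b * a := by
  by_contra hcon
  push Not at hcon
  obtain ⟨τ, hτ⟩ := exists_tvR (show (0 : ℚ) < 1 by norm_num)
  have h1 : τ ∈ Subgroup.center M := by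
    rw [Subgroup.mem_center_iff]
    intro g
    exact congrFun (hcon (fun _ => g) (fun _ => τ)) ⟨0, by omega⟩
  rw [center_eq_bot, Subgroup.mem_bot] at h1
  exact tv_ne_one hτ (congrArg Subtype.val h1)

theorem not_FCR {n : ℕ} : ¬ IsFCR (Fin n → M) := by
  rintro ⟨S, hS, k, hsimp, -, hk, ⟨f⟩⟩
  let i0 : Fin k := ⟨0, by omega⟩
  obtain ⟨s, hs⟩ := exists_ne (1 : S)
  -- the first factor as a normal subgroup
  let N0 : Subgroup (Fin k → S) := (MonoidHom.mulSingle (fun _ => S) i0).range
  have hN0 : N0.Normal := by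
    refine ⟨?_⟩
    rintro _ ⟨g, rfl⟩ x
    refine ⟨x i0 * g * (x i0)⁻¹, ?_⟩
    funext l
    by_cases hl : l = i0
    · subst hl; simp
    · simp [Pi.mulSingle_eq_of_ne hl]
  let N : Subgroup (Fin n → M) := N0.comap f.toMonoidHom
  have hN : N.Normal := hN0.comap _
  have hsN : f.symm (Pi.mulSingle i0 s) ∈ N := by
    change f (f.symm (Pi.mulSingle i0 s)) ∈ N0
    rw [MulEquiv.apply_symm_apply]
    exact ⟨s, rfl⟩
  have hsne : f.symm (Pi.mulSingle i0 s) ≠ 1 := by
    intro h
    rw [MulEquiv.map_eq_one_iff] at h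
    exact hs (Pi.mulSingle_eq_one_iff.1 h)
  obtain ⟨i, hi⟩ : ∃ i, f.symm (Pi.mulSingle i0 s) i ≠ 1 := by
    by_contra hcon
    push Not at hcon
    exact hsne (funext hcon)
  obtain ⟨l, u, hlu, hkey⟩ := normal_pi N hsN hi
  -- the filtration
  let KK : ℚ → Subgroup (Fin n → M) := fun c => Subgroup.pi Set.univ fun _ => K c
  have hKK : ∀ c, (KK c).Normal := by
    intro c
    refine ⟨fun x hx y => ?_⟩
    rw [Subgroup.mem_pi] at hx ⊢
    intro j hj
    exact (inferInstance : (K c).Normal).conj_mem _ (hx j hj) (y j)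
  have htop : ∀ c, (KK c).comap (f.symm.toMonoidHom.comp (MonoidHom.mulSingle (fun _ => S) i0))
      = ⊤ := by
    intro c
    have hnorm : ((KK c).comap
        (f.symm.toMonoidHom.comp (MonoidHom.mulSingle (fun _ => S) i0))).Normal :=
      (hKK c).comap _
    refine (hsimp.eq_bot_or_eq_top_of_normal _ hnorm).resolve_left ?_
    intro hbot
    obtain ⟨τ, hτ⟩ := exists_tvR (show min l c < u from (min_le_left _ _).trans_lt hlu)
    have h1 := hkey _ u (min_le_left l c) le_rfl τ hτ
    obtain ⟨s', hs'⟩ : f (Pi.mulSingle i τ) ∈ N0 := h1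
    have hs'' : Pi.mulSingle i0 s' = f (Pi.mulSingle i τ) := hs'
    have h2 : s' ∈ (KK c).comap
        (f.symm.toMonoidHom.comp (MonoidHom.mulSingle (fun _ => S) i0)) := by
      change f.symm (Pi.mulSingle i0 s') ∈ KK c
      rw [hs'', MulEquiv.symm_apply_apply, Subgroup.mem_pi]
      intro j _
      by_cases hj : j = i
      · subst hj
        rw [Pi.mulSingle_eq_same]
        exact tv_mem_K (min_le_right l c) hτ
      · rw [Pi.mulSingle_eq_of_ne hj]
        exact (K c).one_mem
    rw [hbot, Subgroup.mem_bot] at h2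
    rw [h2, Pi.mulSingle_one, eq_comm, MulEquiv.map_eq_one_iff, Pi.mulSingle_eq_one_iff] at hs''
    exact tv_ne_one hτ (congrArg Subtype.val hs'')
  apply hsne
  funext j
  apply eq_one_of_forall_mem_K
  intro c
  have h3 : s ∈ (KK c).comap
      (f.symm.toMonoidHom.comp (MonoidHom.mulSingle (fun _ => S) i0)) := by
    rw [htop c]; trivial
  have h4 : f.symm (Pi.mulSingle i0 s) ∈ KK c := h3
  exact (Subgroup.mem_pi _).1 h4 j trivial

theorem not_simple {n : ℕ} (hn : 2 ≤ n) : ¬ IsSimpleGroup (Fin n → M) := by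
  intro h
  apply not_FCR (n := n)
  refine ⟨Fin n → M, inferInstance, 1, h, nonabelian hn, le_rfl, ⟨?_⟩⟩
  exact (MulEquiv.piUnique (fun _ : Fin 1 => (Fin n → M))).symm

/-- **Answer to Q1: yes.** There is a non-abelian characteristically simple group `T`, neither
simple nor an FCR-group, such that `D(T, m)` preserves a Cartesian lattice for every `m > 1`. -/
theorem result : ∃ (T : Type) (_ : Group T),
    (∃ a b : T, a * b ≠ b * a) ∧ IsCharSimple T ∧ ¬ IsSimpleGroup T ∧ ¬ IsFCR T ∧
      ∀ m : ℕ, 1 < m → PreservesCartesianLattice (diagonalGroup T m) := by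
  have := nontrivial_M
  refine ⟨Fin 2 → M, inferInstance, nonabelian le_rfl, charSimple le_rfl, not_simple le_rfl,
    not_FCR, fun m hm => preserves_of_aut le_rfl hm.le fun α => ?_⟩
  exact V1130.aut_pi normal_meet center_eq_bot α

end Pool.Agent.Results.MP_f6f6d4_al.DiagonalCartesianLattice
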